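import Pool.Agent.helper3.SP.SpecPP

/-!
# Module PP17 (project sp): all loops are between the gates
-/

namespace TP

open DP MeasureTheory

theorem pp17_reg (Ws : List Wire) (v : V) (h : v ∈ regL (Ws.flatMap Wire.all)) :
    ∃ w ∈ Ws, v ∈ regL w.all := by
  obtain ⟨q, hq, hv⟩ := h
  obtain ⟨w, hw, hq'⟩ := List.mem_flatMap.1 hq
  exact ⟨w, hw, q, hq', hv⟩

/-- The conclusion, in integer coordinates. -/
def pp17_ok (x : V) (a P t : ℤ) (v : V) : Prop :=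
  (29 * a ≤ v.1 - x.1 ∨ 29 * a ≤ x.1 - v.1 ∨ 29 * a ≤ v.2 - x.2 ∨ 29 * a ≤ x.2 - v.2) ∧
    v.1 - x.1 ≤ 280 * t ∧ x.1 - v.1 ≤ 280 * t ∧ v.2 - x.2 ≤ 280 * t ∧ x.2 - v.2 ≤ 280 * t ∧
    (29 * a ≤ v.1 - x.1 - 32 * P ∨ 29 * a ≤ x.1 + 32 * P - v.1 ∨ 29 * a ≤ v.2 - x.2 ∨
      29 * a ≤ x.2 - v.2)

theorem pp17_fin (x v : V) (ℓ₁ ℓ S ℓ₃ : ℕ) (h : pp17_ok x ℓ₁ ((S : ℤ) * ℓ) ℓ₃ v) :
    v ∈ ann x (29 * ℓ₁) (280 * ℓ₃) ∧ 29 * ℓ₁ ≤ sd (yc x ℓ S) v := by
  have e1 : (32 : ℤ) * S * ℓ = 32 * ((S : ℤ) * ℓ) := by ring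
  unfold pp17_ok at h
  simp only [ann, yc, sd, Set.mem_setOf_eq, e1]
  generalize (S : ℤ) * ℓ = P at h ⊢
  obtain ⟨h1, h2, h3, h4, h5, h6⟩ := h
  refine ⟨⟨?_, ?_⟩, ?_⟩
  · clear h6
    omega
  · omega
  · clear h1
    omega

theorem PP17 (hPP14 : PP14_stmt) (hPP15 : PP15_stmt) : PP17_stmt := by
  intro x m₀ n₀ ℓ₁ ℓ S ℓ₃ k hP
  suffices H : ∀ v ∈ regL (Lcol k x ℓ₁ ℓ S ℓ₃), pp17_ok x ℓ₁ ((S : ℤ) * ℓ) ℓ₃ v from
    ⟨fun v hv => (pp17_fin x v ℓ₁ ℓ S ℓ₃ (H v hv)).1,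
      fun v hv => (pp17_fin x v ℓ₁ ℓ S ℓ₃ (H v hv)).2⟩
  intro v hv
  obtain ⟨g1, g2, g3, g4, g5, g6⟩ := hP
  have a1 : (16 : ℤ) ≤ ℓ₁ := by omega
  have a2 : 64 * (ℓ₁ : ℤ) ≤ ℓ := by omega
  have a3 : 16 * (ℓ : ℤ) ≤ (S : ℤ) * ℓ := by
    have : (16 : ℤ) ≤ S := by exact_mod_cast g4
    exact mul_le_mul_of_nonneg_right this (by positivity)
  have a4 : 256 * ((S : ℤ) * ℓ) ≤ (S : ℤ) ^ 3 * ℓ := by
    have h16 : (16 : ℤ) ≤ S := by exact_mod_cast g4
    have h2 : (256 : ℤ) ≤ (S : ℤ) ^ 2 := by nlinarith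
    have h3 : (S : ℤ) ^ 3 * ℓ = (S : ℤ) ^ 2 * ((S : ℤ) * ℓ) := by ring
    rw [h3]
    exact mul_le_mul_of_nonneg_right h2 (by positivity)
  have a5 : 64 * ((S : ℤ) ^ 3 * ℓ) ≤ ℓ₃ := by exact_mod_cast g5
  have l1 : 1 ≤ ℓ₁ := by omega
  have l2 : 1 ≤ ℓ := by omega
  have l3 : 1 ≤ ℓ₃ := by omega
  have r32 : (32 : ℤ) * S * ℓ = 32 * ((S : ℤ) * ℓ) := by ring
  have r64 : (64 : ℤ) * S * ℓ = 64 * ((S : ℤ) * ℓ) := by ring
  have c32 : (32 : ℤ) * (S : ℤ) ^ 3 * ℓ = 32 * ((S : ℤ) ^ 3 * ℓ) := by ring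
  have c16 : (16 : ℤ) * (S : ℤ) ^ 3 * ℓ = 16 * ((S : ℤ) ^ 3 * ℓ) := by ring
  have c29 : (29 : ℤ) * (S : ℤ) ^ 3 * ℓ = 29 * ((S : ℤ) ^ 3 * ℓ) := by ring
  have c35 : (35 : ℤ) * (S : ℤ) ^ 3 * ℓ = 35 * ((S : ℤ) ^ 3 * ℓ) := by ring
  have c13 : (13 : ℤ) * (S : ℤ) ^ 3 * ℓ = 13 * ((S : ℤ) ^ 3 * ℓ) := by ring
  have c19 : (19 : ℤ) * (S : ℤ) ^ 3 * ℓ = 19 * ((S : ℤ) ^ 3 * ℓ) := by ring
  have c3 : (3 : ℤ) * (S : ℤ) ^ 3 * ℓ = 3 * ((S : ℤ) ^ 3 * ℓ) := by ring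
  cases k
  · obtain ⟨w, hw, hvw⟩ := pp17_reg _ v hv
    simp only [Wwht, List.mem_flatMap, List.mem_cons, List.not_mem_nil, or_false] at hw
    obtain ⟨e, -, hw⟩ := hw
    have b1 := (hPP15 x ℓ₁ S e l1 g4).1
    have b2 := (hPP15 (yc x ℓ S) ℓ₁ S e l1 g4).1
    have b3 := (hPP15 x ℓ S e l2 g4).2
    have b4 := (hPP15 x ℓ₃ S e l3 g4).1
    unfold pp17_ok
    rcases hw with rfl | rfl | rfl | rfl
    · have := b1 v hvw
      simp only [r32, r64, c32, c16, c29, c35, c13, c19, c3, yc, abs_lt, lt_abs] at this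
      clear b1 b2 b3 b4
      generalize (S : ℤ) ^ 3 * ℓ = L at *
      generalize (S : ℤ) * ℓ = P at *
      cases e <;> simp only [sge, if_true, if_false, Bool.false_eq_true, one_mul, neg_mul] at this <;>
        omega
    · have := b2 v hvw
      simp only [r32, r64, c32, c16, c29, c35, c13, c19, c3, yc, abs_lt, lt_abs] at this
      clear b1 b2 b3 b4
      generalize (S : ℤ) ^ 3 * ℓ = L at *
      generalize (S : ℤ) * ℓ = P at *
      cases e <;> simp only [sge, if_true, if_false, Bool.false_eq_true, one_mul, neg_mul] at this <;>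
        omega
    · have := b3 v hvw
      simp only [r32, r64, c32, c16, c29, c35, c13, c19, c3, yc, abs_lt, lt_abs] at this
      clear b1 b2 b3 b4
      generalize (S : ℤ) ^ 3 * ℓ = L at *
      generalize (S : ℤ) * ℓ = P at *
      cases e <;> simp only [sge, if_true, if_false, Bool.false_eq_true, one_mul, neg_mul] at this <;>
        omega
    · have := b4 v hvw
      simp only [r32, r64, c32, c16, c29, c35, c13, c19, c3, yc, abs_lt, lt_abs] at this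
      clear b1 b2 b3 b4
      generalize (S : ℤ) ^ 3 * ℓ = L at *
      generalize (S : ℤ) * ℓ = P at *
      cases e <;> simp only [sge, if_true, if_false, Bool.false_eq_true, one_mul, neg_mul] at this <;>
        omega
  · obtain ⟨w, hw, hvw⟩ := pp17_reg _ v hv
    simp only [Wblk, List.mem_flatMap, List.mem_cons, List.not_mem_nil, or_false] at hw
    obtain ⟨e, -, hw⟩ := hw
    have b1 := (hPP14 x ℓ₁ S e l1 g4).1
    have b2 := (hPP14 (yc x ℓ S) ℓ₁ S e l1 g4).1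
    have b3 := (hPP14 x ℓ S e l2 g4).2.2.1
    have b4 := (hPP14 x ℓ S e l2 g4).2.2.2.1
    have b5 := (hPP14 x ℓ S e l2 g4).2.2.2.2
    have b6 := (hPP14 x ℓ₃ S e l3 g4).2.1
    unfold pp17_ok
    rcases hw with rfl | rfl | rfl | rfl | rfl | rfl
    · have := b1 v hvw
      simp only [r32, r64, c32, c16, c29, c35, c13, c19, c3, yc, abs_lt, lt_abs] at this
      clear b1 b2 b3 b4 b5 b6
      generalize (S : ℤ) ^ 3 * ℓ = L at *
      generalize (S : ℤ) * ℓ = P at *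
      cases e <;> simp only [sge, if_true, if_false, Bool.false_eq_true, one_mul, neg_mul] at this <;>
        omega
    · have := b2 v hvw
      simp only [r32, r64, c32, c16, c29, c35, c13, c19, c3, yc, abs_lt, lt_abs] at this
      clear b1 b2 b3 b4 b5 b6
      generalize (S : ℤ) ^ 3 * ℓ = L at *
      generalize (S : ℤ) * ℓ = P at *
      cases e <;> simp only [sge, if_true, if_false, Bool.false_eq_true, one_mul, neg_mul] at this <;>
        omega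
    · have := b3 v hvw
      simp only [r32, r64, c32, c16, c29, c35, c13, c19, c3, yc, abs_lt, lt_abs] at this
      clear b1 b2 b3 b4 b5 b6
      generalize (S : ℤ) ^ 3 * ℓ = L at *
      generalize (S : ℤ) * ℓ = P at *
      cases e <;> simp only [sge, if_true, if_false, Bool.false_eq_true, one_mul, neg_mul] at this <;>
        omega
    · have := b4 v hvw
      simp only [r32, r64, c32, c16, c29, c35, c13, c19, c3, yc, abs_lt, lt_abs] at this
      clear b1 b2 b3 b4 b5 b6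
      generalize (S : ℤ) ^ 3 * ℓ = L at *
      generalize (S : ℤ) * ℓ = P at *
      cases e <;> simp only [sge, if_true, if_false, Bool.false_eq_true, one_mul, neg_mul] at this <;>
        omega
    · have := b5 v hvw
      simp only [r32, r64, c32, c16, c29, c35, c13, c19, c3, yc, abs_lt, lt_abs] at this
      clear b1 b2 b3 b4 b5 b6
      generalize (S : ℤ) ^ 3 * ℓ = L at *
      generalize (S : ℤ) * ℓ = P at *
      cases e <;> simp only [sge, if_true, if_false, Bool.false_eq_true, one_mul, neg_mul] at this <;>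
        omega
    · have := b6 v hvw
      simp only [r32, r64, c32, c16, c29, c35, c13, c19, c3, yc, abs_lt, lt_abs] at this
      clear b1 b2 b3 b4 b5 b6
      generalize (S : ℤ) ^ 3 * ℓ = L at *
      generalize (S : ℤ) * ℓ = P at *
      cases e <;> simp only [sge, if_true, if_false, Bool.false_eq_true, one_mul, neg_mul] at this <;>
        omega

end TP
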