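import Pool.Agent.helper2.SP.SpecTA
import Pool.Agent.helper61.SP.TA1

/-!
# Project sp, module TA2: facts on the flip
-/

set_option autoImplicit false

namespace TP.TA

open DP MeasureTheory

theorem TA2_br (v : V) : br (br v) = br v := by
  unfold br
  by_cases h : (v.1 + v.2) % 2 = 0
  · simp only [h, if_true]
  · have h1 : (v.1 - 1 + v.2) % 2 = 0 := by omega
    simp only [h, if_false, h1, if_true]

theorem TA2_BC {c : V → Bool} (h : BC c) {v w : V} (e : br v = br w) : c v = c w := by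
  rw [h v, h w, e]

theorem TA2_FS (x : V) (m n : ℕ) (K : Set V) {v w : V} (e : br v = br w) (h : v ∈ FS x m n K) :
    w ∈ FS x m n K := by
  obtain ⟨⟨z, h1, h2⟩, h3⟩ := h
  exact ⟨⟨z, h1, h2.trans e⟩, fun z hz => by rw [← e]; exact h3 z hz⟩

theorem TA2_in {x : V} {m n : ℕ} {K : Set V} {c : V → Bool} {v : V} (h : v ∈ FS x m n K) :
    Th x m n K c v = !(c v) := by
  unfold Th
  rw [if_pos h]

theorem TA2_out {x : V} {m n : ℕ} {K : Set V} {c : V → Bool} {v : V} (h : v ∉ FS x m n K) :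
    Th x m n K c v = c v := by
  unfold Th
  rw [if_neg h]

theorem TA2_near {x : V} {m n : ℕ} {K : Set V} {c : V → Bool} {v : V}
    (h : v ∈ K ∨ v ∈ nbd (ann x m n) K) : Th x m n K c v = c v :=
  TA2_out fun h' => h'.2 v h rfl

theorem TA2_one (c : V → Bool) (x : V) (m n : ℕ) (K : Set V) (hc : BC c) :
    BC (Th x m n K c) ∧ Th x m n K (Th x m n K c) = c ∧
    (WC c x m n K → WC (Th x m n K c) x m n K ∧
      (∀ v, (v ∈ K ∨ v ∈ nbd (ann x m n) K) → Th x m n K c v = c v) ∧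
      ∀ v ∈ ann x m n, Th x m n K c v = false → v ∉ K → v ∈ FS x m n K ∧ c v = true) := by
  refine ⟨?_, ?_, ?_⟩
  · intro v
    by_cases h : v ∈ FS x m n K
    · rw [TA2_in h, TA2_in (TA2_FS x m n K (TA2_br v).symm h), hc v]
    · have h' : br v ∉ FS x m n K := fun h' => h (TA2_FS x m n K (TA2_br v) h')
      rw [TA2_out h, TA2_out h', hc v]
  · funext v
    by_cases h : v ∈ FS x m n K
    · rw [TA2_in h, TA2_in h, Bool.not_not]
    · rw [TA2_out h, TA2_out h]
  · intro hK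
    obtain ⟨h1, h2, h3, h4, h5, h6, h7⟩ := TA1.1 c x m n K hK
    refine ⟨?_, fun v hv => TA2_near hv, ?_⟩
    · refine TA1.2.2 _ x m n K h1 (fun v hv => ?_) h3 h4 h5 (fun v hv => ?_)
      · rw [TA2_near (Or.inl hv)]; exact h2 v hv
      · rw [TA2_near (Or.inr hv)]; exact h6 v hv
    · intro v hv hf hvK
      by_cases h : v ∈ FS x m n K
      · refine ⟨h, ?_⟩
        rw [TA2_in h] at hf
        simpa using hf
      · exfalso
        rw [TA2_out h] at hf
        apply h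
        refine ⟨⟨v, hv, rfl⟩, ?_⟩
        rintro w (hw | hw) e
        · exact hvK (h7 hc v hv w hw hf e.symm)
        · have := TA2_BC hc e
          rw [h6 w hw, hf] at this
          exact absurd this (by decide)

theorem TA2_symm {c : V → Bool} {x : V} {m n : ℕ} {K K' : Set V} (h : TC c x m n K K') :
    TC c x m n K' K := by
  obtain ⟨h1, h2, h3, h4⟩ := h
  exact ⟨h2, h1, h3.symm, fun v hv w hw e => h4 w hw v hv e.symm⟩

theorem TA2_K' {c : V → Bool} {x : V} {m n : ℕ} {K K' : Set V} (hc : BC c)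
    (h : TC c x m n K K') : K' ⊆ FS x m n K := by
  obtain ⟨h1, h2, h3, h4⟩ := h
  obtain ⟨a1, a2, a3, a4, a5, a6, a7⟩ := TA1.1 c x m n K h1
  obtain ⟨b1, b2, b3, b4, b5, b6, b7⟩ := TA1.1 c x m n K' h2
  intro v hv
  refine ⟨⟨v, b1 hv, rfl⟩, ?_⟩
  rintro w (hw | hw) e
  · have h5 := a7 hc v (b1 hv) w hw (b2 v hv) e.symm
    exact h3 (TA1.2.1 c x m n K K' h1 h2 ⟨v, h5, hv⟩)
  · have := TA2_BC hc e
    rw [a6 w hw, b2 v hv] at this
    exact absurd this (by decide)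

theorem TA2_nK' {c : V → Bool} {x : V} {m n : ℕ} {K K' : Set V} (hc : BC c)
    (h : TC c x m n K K') : nbd (ann x m n) K' ⊆ FS x m n K := by
  obtain ⟨h1, h2, h3, h4⟩ := h
  obtain ⟨a1, a2, a3, a4, a5, a6, a7⟩ := TA1.1 c x m n K h1
  obtain ⟨b1, b2, b3, b4, b5, b6, b7⟩ := TA1.1 c x m n K' h2
  intro v hv
  refine ⟨⟨v, hv.1, rfl⟩, ?_⟩
  rintro w (hw | hw) e
  · have := TA2_BC hc e
    rw [a2 w hw, b6 v hv] at this
    exact absurd this (by decide)
  · exact h4 w hw v hv e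

theorem TA2 : TA2_stmt := by
  refine ⟨TA2_one, ?_⟩
  intro c x m n K K' hc h
  have hK := TA2_K' hc h
  have hn := TA2_nK' hc h
  obtain ⟨h1, h2, h3, h4⟩ := id h
  obtain ⟨a1, a2, a3, a4, a5, a6, a7⟩ := TA1.1 c x m n K h1
  obtain ⟨b1, b2, b3, b4, b5, b6, b7⟩ := TA1.1 c x m n K' h2
  refine ⟨TA2_symm h, hK, hn, ?_, ?_, ?_, ?_, ?_⟩
  · intro v hv
    rw [TA2_in (hK hv), b2 v hv]; rfl
  · intro v hv
    rw [TA2_in (hn hv), b6 v hv]; rfl
  · rw [Set.disjoint_left]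
    intro v hv hv'
    exact (hK hv').2 v (Or.inl hv) rfl
  · rw [Set.disjoint_left]
    intro v hv hv'
    exact (hn hv').2 v (Or.inl hv) rfl
  · rw [Set.disjoint_left]
    intro v hv hv'
    exact h4 v hv v hv' rfl

end TP.TA
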