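import Pool.Agent.helper2.SP.SpecTA
import Pool.Agent.helper61.SP.TA1
import Pool.Agent.helper72.SP.TA2
import Pool.Agent.helper64.TP.Basic

/-!
# Project sp, module TA3: three crossing clusters give a thick pair
-/

set_option autoImplicit false

namespace TP.TA

open DP MeasureTheory

open Classical in
/-- paint `K` black -/
noncomputable def TA3_c (a : V → Bool) (K : Set V) : V → Bool := fun v => if v ∈ K then true else a v

theorem TA3_cK {a : V → Bool} {K : Set V} {v : V} (h : v ∈ K) : TA3_c a K v = true := by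
  unfold TA3_c
  rw [if_pos h]

theorem TA3_cN {a : V → Bool} {K : Set V} {v : V} (h : v ∉ K) : TA3_c a K v = a v := by
  unfold TA3_c
  rw [if_neg h]

theorem TA3_false {a : V → Bool} {K : Set V} {v : V} (h : TA3_c a K v = false) :
    a v = false ∧ v ∉ K := by
  by_cases hv : v ∈ K
  · rw [TA3_cK hv] at h; exact absurd h (by decide)
  · rw [TA3_cN hv] at h; exact ⟨h, hv⟩

/-- from a black crossing cluster off `K` to a thick pair -/
theorem TA3_pair (a : V → Bool) (x : V) (m n : ℕ) (K : Set V) (hBC : BC a) (hK : WC a x m n K)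
    (u u' : V) (hu : u ∈ bd x m) (hu' : u' ∈ bd x n) (huu : Conn (TA3_c a K) true (ann x m n) u u')
    (hoff : ∀ w ∈ K, ¬ Conn (TA3_c a K) true (ann x m n) u w) :
    ∃ K' : Set V, TC (Th x m n K a) x m n K K' := by
  obtain ⟨a1, a2, a3, a4, a5, a6, a7⟩ := TA1.1 a x m n K hK
  set K' : Set V := {w | Conn (TA3_c a K) true (ann x m n) u w} with hK'
  have b1 : K' ⊆ ann x m n := fun w hw => Conn.mem_right hw
  have b2 : ∀ w ∈ K', w ∉ K := fun w hw hwK => hoff w hwK hw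
  have b3 : ∀ w ∈ K', a w = true := by
    intro w hw
    have h := Conn.colour_right hw
    rw [TA3_cN (b2 w hw)] at h
    exact h
  have b4 : ∀ w ∈ nbd (ann x m n) K', a w = false ∧ w ∉ K := by
    rintro w ⟨h1, h2, z, hz, hzw⟩
    refine TA3_false ?_
    by_contra hne
    have ht : TA3_c a K w = true := by simpa using hne
    exact h2 (Con.tail hz hzw ⟨h1, ht⟩)
  have b5 : ∀ w ∈ nbd (ann x m n) K, w ∉ K' := by
    rintro w hw hw'
    obtain ⟨h1, h2, z, hz, hzw⟩ := hw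
    exact hoff z hz (Con.tail hw' hzw.symm ⟨a1 hz, TA3_cK hz⟩)
  have c1 : K' ⊆ FS x m n K := by
    intro v hv
    refine ⟨⟨v, b1 hv, rfl⟩, ?_⟩
    rintro w (hw | hw) e
    · have := TA2_BC hBC e
      rw [a2 w hw, b3 v hv] at this
      exact absurd this (by decide)
    · by_cases hvw : v = w
      · exact b5 w hw (hvw ▸ hv)
      · have hcw : TA3_c a K w = true := by
          rw [TA3_cN hw.2.1]; exact a6 w hw
        exact b5 w hw (Con.tail hv (br_adj e.symm hvw) ⟨hw.1, hcw⟩)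
  have c2 : nbd (ann x m n) K' ⊆ FS x m n K := by
    intro v hv
    obtain ⟨h1, h2⟩ := b4 v hv
    refine ⟨⟨v, hv.1, rfl⟩, ?_⟩
    rintro w (hw | hw) e
    · exact h2 (a7 hBC v hv.1 w hw h1 e.symm)
    · have := TA2_BC hBC e
      rw [a6 w hw, h1] at this
      exact absurd this (by decide)
  obtain ⟨d1, d2, d3⟩ := TA2_one a x m n K hBC
  obtain ⟨d4, d5, d6⟩ := d3 hK
  have huK' : u ∈ K' := DP.Con.refl huu.1
  have conK' : ∀ w ∈ K', Con K' u w := by
    intro w hw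
    refine Con.induct hw (fun z => Con K' u z) (DP.Con.refl huK') ?_
    intro p q hp hq hpq hup ih
    exact ih.tail hpq (hup.tail hpq hq)
  have e1 : WC (Th x m n K a) x m n K' := by
    refine TA1.2.2 _ x m n K' b1 ?_ ?_ ⟨u, huK', hu⟩ ⟨u', huu, hu'⟩ ?_
    · intro v hv
      rw [TA2_in (c1 hv), b3 v hv]; rfl
    · intro v hv w hw
      exact (conK' v hv).symm.trans (conK' w hw)
    · intro v hv
      rw [TA2_in (c2 hv), (b4 v hv).1]; rfl
  refine ⟨K', d4, e1, ?_, ?_⟩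
  · intro h
    exact b2 u huK' (h ▸ huK')
  · intro v hv w hw e
    exact (c2 hw).2 v (Or.inr hv) e

theorem TA3 (hTC : DP.TC_stmt) : TA3_stmt := by
  intro a x m n K hev hm hmn hBC hK hThr
  obtain ⟨K₂, K₃, h2, h3, n12, n13, n23⟩ := hThr
  obtain ⟨a1, a2, a3, a4, a5, a6, a7⟩ := TA1.1 a x m n K hK
  -- the other clusters are crossing clusters of the painted colouring
  have key : ∀ K₁ : Set V, WC a x m n K₁ → K ≠ K₁ → ∃ u ∈ bd x m, u ∈ K₁ ∧
      ∃ u' ∈ bd x n, Conn (TA3_c a K) false (ann x m n) u u' := by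
    intro K₁ h1 hne
    obtain ⟨b1, b2, b3, ⟨u, hu, hu'⟩, ⟨v, hv, hv'⟩, b6, b7⟩ := TA1.1 a x m n K₁ h1
    refine ⟨u, hu', hu, v, hv', Con.mono ?_ (b3 u hu v hv)⟩
    intro w hw
    have hwK : w ∉ K := fun hwK => hne (TA1.2.1 a x m n K K₁ hK h1 ⟨w, hwK, hw⟩)
    exact ⟨b1 hw, by rw [TA3_cN hwK]; exact b2 w hw⟩
  obtain ⟨u₂, hu2, hu2', v₂, hv2, hc2⟩ := key K₂ h2 n12
  obtain ⟨u₃, hu3, hu3', v₃, hv3, hc3⟩ := key K₃ h3 n13
  have hnot : ¬ Conn (TA3_c a K) false (ann x m n) u₂ u₃ := by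
    intro h
    have h4 : Conn a false (ann x m n) u₂ u₃ :=
      Conn.colour_mono (fun v _ hv => (TA3_false hv).1) h
    obtain ⟨p, hp, hp', hK2⟩ := h2
    have h5 : u₃ ∈ K₂ := by
      rw [hK2] at hu2' ⊢
      exact Conn.trans hu2' h4
    exact n23 (TA1.2.1 a x m n K₂ K₃ ⟨p, hp, hp', hK2⟩ h3 ⟨u₃, h5, hu3'⟩)
  have htw : twoCl (TA3_c a K) false x m n :=
    ⟨u₂, hu2, u₃, hu3, ⟨v₂, hv2, hc2⟩, ⟨v₃, hv3, hc3⟩, hnot⟩
  obtain ⟨u, hu, v, hv, ⟨u', hu', huu⟩, ⟨v', hv', hvv⟩, hn⟩ := (hTC _ x m n hev hm hmn).1 htw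
  by_cases hK1 : ∃ w ∈ K, Conn (TA3_c a K) true (ann x m n) u w
  · obtain ⟨w, hw, hcw⟩ := hK1
    refine TA3_pair a x m n K hBC hK v v' hv hv' hvv ?_
    intro z hz hcz
    apply hn
    have h6 : Conn (TA3_c a K) true (ann x m n) w z := by
      refine Con.mono ?_ (a3 w hw z hz)
      intro y hy
      exact ⟨a1 hy, TA3_cK hy⟩
    exact (hcw.trans h6).trans hcz.symm
  · push Not at hK1
    exact TA3_pair a x m n K hBC hK u u' hu hu' huu hK1

end TP.TA
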