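import Pool.Agent.helper31.SP.SpecTL
import Pool.Agent.helper96.DP.Basic

/-! # sp:TL14. Second moment in one box. -/

namespace TP

open DP MeasureTheory

theorem TL14_a4_nonneg (p q : ℕ) : 0 ≤ a4 p q := by
  unfold a4 Pr
  exact measureReal_nonneg

theorem TL14_prob : IsProbabilityMeasure P1 := by
  unfold P1
  infer_instance

theorem TL14_a4_le_one (p q : ℕ) : a4 p q ≤ 1 := by
  have := TL14_prob
  unfold a4 Pr
  exact measureReal_le_one

open Classical in
theorem TL14 (h12 : TL12_stmt) (h13 : TL13_stmt) (hSUM : SUM_stmt) (hU8 : UI8_stmt) :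
    TL14_stmt := by
  obtain ⟨k1, hk1⟩ := h12
  obtain ⟨k2, hk2⟩ := hSUM
  obtain ⟨C3, k3, hC3, -, h8, -, -, hpos⟩ := hU8
  refine ⟨max k1 (max k2 k3), fun m₀ hm₀ => ?_⟩
  have hm1 : k1 ≤ m₀ := le_trans (le_max_left _ _) hm₀
  have hm2 : k2 ≤ m₀ := le_trans ((le_max_left _ _).trans (le_max_right _ _)) hm₀
  have hm3 : k3 ≤ m₀ := le_trans ((le_max_right _ _).trans (le_max_right _ _)) hm₀
  obtain ⟨C1, hC1, H12⟩ := hk1 m₀ hm1
  obtain ⟨C2, hC2, HS⟩ := hk2 m₀ hm2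
  set K1 : ℝ := 64 * 4 ^ (m₀ + 3) * C2 + 64 * (C2 * (4 * C3)) with hK1
  have hK1pos : 0 < K1 := by positivity
  refine ⟨16 * C1 * K1 * C3, by positivity, ?_⟩
  intro i k t x hx hmt htk
  -- one point
  set a : ℝ := a4 m₀ (i - k) with ha
  have ha0 : 0 ≤ a := TL14_a4_nonneg _ _
  have hone : ∀ u ∈ bxF i x (2 ^ t), ∑ v ∈ bxF i x (2 ^ t), PS i (fun X => u ∈ X ∧ v ∈ X) ≤
      C1 * a * (K1 * (4 ^ t * a4 m₀ t)) := by
    intro u hu
    have hpt : ∀ v ∈ bxF i x (2 ^ t), PS i (fun X => u ∈ X ∧ v ∈ X) ≤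
        C1 * a * ((if sd u v < 2 ^ (m₀ + 3 + 1) then 1 else 0) +
          ∑ l ∈ Finset.Ioc m₀ (t + 1), a4 m₀ l * (if sd u v < 2 ^ (l + 1) then 1 else 0)) := by
      intro v hv
      obtain ⟨hA, hB⟩ := H12 i k t x u v hx (by omega) htk hu hv
      have hsum0 : 0 ≤ ∑ l ∈ Finset.Ioc m₀ (t + 1),
          a4 m₀ l * (if sd u v < 2 ^ (l + 1) then (1 : ℝ) else 0) :=
        Finset.sum_nonneg fun l _ => mul_nonneg (TL14_a4_nonneg _ _) (by split_ifs <;> norm_num)
      by_cases hnear : sd u v < 2 ^ (m₀ + 3 + 1)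
      · rw [if_pos hnear]
        refine hA.trans ?_
        have h5 : C1 * a * 1 ≤ C1 * a * (1 + ∑ l ∈ Finset.Ioc m₀ (t + 1),
            a4 m₀ l * (if sd u v < 2 ^ (l + 1) then (1 : ℝ) else 0)) :=
          mul_le_mul_of_nonneg_left (by linarith) (by positivity)
        linarith
      · rw [if_neg hnear, zero_add]
        have hne : sd u v ≠ 0 := by
          intro h
          apply hnear
          rw [h]
          positivity
        have hl1 : 2 ^ Nat.log 2 (sd u v) ≤ sd u v := Nat.pow_log_le_self 2 hne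
        have hl2 : sd u v < 2 ^ (Nat.log 2 (sd u v) + 1) := Nat.lt_pow_succ_log_self (by norm_num) _
        have hl3 : m₀ + 4 ≤ Nat.log 2 (sd u v) := by
          apply Nat.le_log_of_pow_le (by norm_num)
          push Not at hnear
          exact hnear
        have hux : sd x u ≤ 2 ^ t := by
          unfold bxF at hu
          exact (Finset.mem_filter.1 hu).2
        have hvx : sd x v ≤ 2 ^ t := by
          unfold bxF at hv
          exact (Finset.mem_filter.1 hv).2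
        have huv : sd u v ≤ 2 ^ (t + 1) := by
          have h6 := sd_triangle u x v
          rw [sd_comm u x] at h6
          rw [pow_succ]
          omega
        have hl4 : Nat.log 2 (sd u v) ≤ t + 1 := by
          have h7 : 2 ^ Nat.log 2 (sd u v) ≤ 2 ^ (t + 1) := hl1.trans huv
          exact (Nat.pow_le_pow_iff_right (by norm_num)).1 h7
        have h8' := hB _ hl3 hl1 hl2
        refine h8'.trans ?_
        have hmem : Nat.log 2 (sd u v) ∈ Finset.Ioc m₀ (t + 1) := by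
          rw [Finset.mem_Ioc]; omega
        have h9 : a4 m₀ (Nat.log 2 (sd u v)) *
            (if sd u v < 2 ^ (Nat.log 2 (sd u v) + 1) then (1 : ℝ) else 0) ≤
            ∑ l ∈ Finset.Ioc m₀ (t + 1), a4 m₀ l * (if sd u v < 2 ^ (l + 1) then (1 : ℝ) else 0) :=
          Finset.single_le_sum (f := fun l => a4 m₀ l * (if sd u v < 2 ^ (l + 1) then (1 : ℝ) else 0))
            (fun l _ => mul_nonneg (TL14_a4_nonneg _ _) (by split_ifs <;> norm_num)) hmem
        rw [if_pos hl2, mul_one] at h9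
        have h10 := mul_le_mul_of_nonneg_left h9 (show 0 ≤ C1 * a by positivity)
        linarith
    refine (Finset.sum_le_sum hpt).trans ?_
    rw [← Finset.mul_sum]
    refine mul_le_mul_of_nonneg_left ?_ (by positivity)
    rw [Finset.sum_add_distrib, Finset.sum_comm]
    have hcard : ∀ l, ∑ v ∈ bxF i x (2 ^ t), (if sd u v < 2 ^ (l + 1) then (1 : ℝ) else 0) ≤
        64 * 4 ^ l := by
      intro l
      rw [← Finset.sum_filter, Finset.sum_const, nsmul_eq_mul, mul_one]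
      exact (h13 i l t x u).1
    have hnear := hcard (m₀ + 3)
    have hfar : ∑ l ∈ Finset.Ioc m₀ (t + 1), ∑ v ∈ bxF i x (2 ^ t),
        a4 m₀ l * (if sd u v < 2 ^ (l + 1) then (1 : ℝ) else 0) ≤
        64 * (C2 * (4 * C3)) * (4 ^ t * a4 m₀ t) := by
      have h11 : ∀ l ∈ Finset.Ioc m₀ (t + 1), ∑ v ∈ bxF i x (2 ^ t),
          a4 m₀ l * (if sd u v < 2 ^ (l + 1) then (1 : ℝ) else 0) ≤ 64 * (4 ^ l * a4 m₀ l) := by
        intro l _
        rw [← Finset.mul_sum]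
        have := mul_le_mul_of_nonneg_left (hcard l) (TL14_a4_nonneg m₀ l)
        linarith
      refine (Finset.sum_le_sum h11).trans ?_
      rw [← Finset.mul_sum]
      have h12' := (HS (t + 1) (by omega)).1
      have h13' : a4 m₀ (t + 1) ≤ C3 * a4 m₀ t := by
        have h14 := h8 m₀ t (t + 1) hm3 (by omega) (by omega)
        have h15 : a4 m₀ t * a4 t (t + 1) ≤ a4 m₀ t * 1 :=
          mul_le_mul_of_nonneg_left (TL14_a4_le_one _ _) (TL14_a4_nonneg _ _)
        have h16 := mul_le_mul_of_nonneg_left h15 (show 0 ≤ C3 by linarith)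
        linarith
      have h17 : ∑ l ∈ Finset.Ioc m₀ (t + 1), (4 : ℝ) ^ l * a4 m₀ l ≤
          C2 * (4 ^ (t + 1) * a4 m₀ (t + 1)) := h12'
      have h18 : C2 * (4 ^ (t + 1) * a4 m₀ (t + 1)) ≤ C2 * (4 ^ (t + 1) * (C3 * a4 m₀ t)) := by
        gcongr
      have h19 : C2 * ((4 : ℝ) ^ (t + 1) * (C3 * a4 m₀ t)) = C2 * (4 * C3) * (4 ^ t * a4 m₀ t) := by
        rw [pow_succ]; ring
      rw [mul_assoc]
      refine mul_le_mul_of_nonneg_left ?_ (by norm_num)
      linarith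
    have hS1 : 1 ≤ C2 * ((4 : ℝ) ^ t * a4 m₀ t) := (HS t (by omega)).2
    have h20 : 64 * 4 ^ (m₀ + 3) ≤ 64 * 4 ^ (m₀ + 3) * (C2 * ((4 : ℝ) ^ t * a4 m₀ t)) := by
      have : (0 : ℝ) ≤ 64 * 4 ^ (m₀ + 3) := by positivity
      nlinarith
    have h21 : K1 * (4 ^ t * a4 m₀ t) = 64 * 4 ^ (m₀ + 3) * (C2 * ((4 : ℝ) ^ t * a4 m₀ t)) +
        64 * (C2 * (4 * C3)) * (4 ^ t * a4 m₀ t) := by
      rw [hK1]; ring
    rw [h21]
    linarith
  refine (Finset.sum_le_sum hone).trans ?_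
  rw [Finset.sum_const, nsmul_eq_mul]
  have hc := (h13 i 0 t x x).2
  have ht0 : 0 ≤ a4 m₀ t := TL14_a4_nonneg _ _
  have hfac : 0 ≤ C1 * a * (K1 * (4 ^ t * a4 m₀ t)) := by positivity
  have haa : a ≤ C3 * (a4 m₀ t * a4 t (i - k)) := h8 m₀ t (i - k) hm3 (by omega) (by omega)
  calc ((bxF i x (2 ^ t)).card : ℝ) * (C1 * a * (K1 * (4 ^ t * a4 m₀ t)))
      ≤ 16 * 4 ^ t * (C1 * a * (K1 * (4 ^ t * a4 m₀ t))) := mul_le_mul_of_nonneg_right hc hfac
    _ ≤ 16 * 4 ^ t * (C1 * (C3 * (a4 m₀ t * a4 t (i - k))) * (K1 * (4 ^ t * a4 m₀ t))) := by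
        gcongr
    _ = 16 * C1 * K1 * C3 * ((4 ^ t * a4 m₀ t) ^ 2 * a4 t (i - k)) := by ring

end TP
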