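import Pool.Agent.helper31.SP.SpecTL

/-! # sp:TL16. Cauchy-Schwarz for a finite set covered by boxes. -/

namespace TP

open DP MeasureTheory

open Classical in
theorem TL16 : TL16_stmt := by
  intro i r G T hT hcov
  set G' := G.filter fun x => ∃ v ∈ T, sd x v ≤ r with hG'
  have h1 : T.card ≤ ∑ x ∈ G', ((bxF i x r).filter fun v => v ∈ T).card := by
    have hsub : T ⊆ G'.biUnion (fun x => (bxF i x r).filter fun v => v ∈ T) := by
      intro v hv
      obtain ⟨x, hx, hxv⟩ := hcov v hv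
      rw [Finset.mem_biUnion]
      refine ⟨x, ?_, ?_⟩
      · rw [hG', Finset.mem_filter]
        exact ⟨hx, v, hv, hxv⟩
      · rw [Finset.mem_filter]
        refine ⟨?_, hv⟩
        unfold bxF
        rw [Finset.mem_filter]
        exact ⟨hT hv, hxv⟩
    exact (Finset.card_le_card hsub).trans Finset.card_biUnion_le
  have h2 : (T.card : ℝ) ≤ ∑ x ∈ G', (((bxF i x r).filter fun v => v ∈ T).card : ℝ) := by
    exact_mod_cast h1
  have h3 : (∑ x ∈ G', (((bxF i x r).filter fun v => v ∈ T).card : ℝ)) ^ 2 ≤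
      (G'.card : ℝ) * ∑ x ∈ G', (((bxF i x r).filter fun v => v ∈ T).card : ℝ) ^ 2 :=
    sq_sum_le_card_mul_sum_sq
  have h4 : ∑ x ∈ G', (((bxF i x r).filter fun v => v ∈ T).card : ℝ) ^ 2 ≤
      ∑ x ∈ G, (((bxF i x r).filter fun v => v ∈ T).card : ℝ) ^ 2 :=
    Finset.sum_le_sum_of_subset_of_nonneg (Finset.filter_subset _ _) fun _ _ _ => by positivity
  calc (T.card : ℝ) ^ 2 ≤ (∑ x ∈ G', (((bxF i x r).filter fun v => v ∈ T).card : ℝ)) ^ 2 :=
        pow_le_pow_left₀ (by positivity) h2 2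
    _ ≤ (G'.card : ℝ) * ∑ x ∈ G', (((bxF i x r).filter fun v => v ∈ T).card : ℝ) ^ 2 := h3
    _ ≤ _ := mul_le_mul_of_nonneg_left h4 (by positivity)

end TP
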